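import Mathlib
import Pool.Agent.Lib.GQ.Cnt

/-!
# Few values of the Gamma function at rational points are algebraic of small degree and height

There is a constant `C` such that for all `N ≥ 2`, `d ≥ 1`, `H ≥ 3` at most
`C * d ^ 3 * (log N + log (log H)) ^ 2` rational numbers `r` in `(0, 1]` of denominator at most `N` are such that
`Γ(r)` is a root of a nonzero integer polynomial of degree at most `d` with coefficients of absolute value at
most `H`.

Proof (library `Pool.Agent.Lib.GQ`): the functional equation translates each algebraic value `1 / Γ(r)` to the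
`M ≈ log H` points `r - m`, `m < M`. Siegel's lemma gives `F(z) = P(z, 1 / Γ(z))` vanishing at all these points, of degree
`T M` in `z` and `T` in `1 / Γ`; the Schwarz lemma and the Liouville inequality extrapolate the zeros to `r - m`, `m < M1`, with
`M1` of the order of `(N T M) ^ 2`, and then the growth of `1 / Γ(r - m)` shows that the leading coefficient of `P` has too
many zeros.
-/

namespace Pool.Agent.Results.MP_84d916_nt.FewAlgebraicValues

theorem result : ∃ C : ℝ, ∀ (N d : ℕ) (H : ℝ), 2 ≤ N → 1 ≤ d → 3 ≤ H →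
    {r : ℚ | 0 < r ∧ r ≤ 1 ∧ r.den ≤ N ∧ ∃ q : Polynomial ℤ, q ≠ 0 ∧ q.natDegree ≤ d ∧
      (∀ i, |(q.coeff i : ℝ)| ≤ H) ∧ Polynomial.aeval (Real.Gamma (r : ℝ)) q = 0}.Finite ∧
    ({r : ℚ | 0 < r ∧ r ≤ 1 ∧ r.den ≤ N ∧ ∃ q : Polynomial ℤ, q ≠ 0 ∧ q.natDegree ≤ d ∧
      (∀ i, |(q.coeff i : ℝ)| ≤ H) ∧ Polynomial.aeval (Real.Gamma (r : ℝ)) q = 0}.ncard : ℝ) ≤
      C * d ^ 3 * (Real.log N + Real.log (Real.log H)) ^ 2 :=
  GQ.main1

end Pool.Agent.Results.MP_84d916_nt.FewAlgebraicValues
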